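import Pool.Agent.WR3.StmtsA

/-!
WR3, block B: invariant sets and trees. The docstrings contain the complete proofs.
-/

namespace Pool.Agent.WR3

open Pool.Agent.WIR Pool.Agent.WR2
open scoped BigOperators ENNReal Topology
open Filter

/-! ### invariant sets -/

/-- **Row UPB** (upper bound for the iterates; no hypotheses). PROOF. Induction on t (`Function.iterate_succ_apply'`,
od (t+1) b = od t b + (1 if T^t b is odd)): c = T^t b. c even: 2^(t+1) T c = 2^t c ≤ 3^l (b + 2^t). c odd: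
2^(t+1) T c = 3 * 2^t c + 2^t ≤ 3^(l+1) (b + 2^t) + 2^t ≤ 3^(l+1) (b + 2^(t+1)). Second part: 2 T b ≥ b,
induction. -/
def UpbStmt : Prop :=
  (∀ t b : ℕ, 2 ^ t * T^[t] b ≤ 3 ^ od t b * (b + 2 ^ t)) ∧ (∀ t b : ℕ, b ≤ 2 ^ t * T^[t] b)

/-- **Row STY** (t steps back for an invariant set; uses UPB, SMU, PRD and WR2.PreStmt). PROOF. Fix t, x ≥ 0.
Q = {b ∈ Icc 1 ⌊x⌋₊ : T^t b ∈ S}. (a) |NS S x - card Q| ≤ B 2^t: if b > 2^t B then T^i b ≥ b/2^i > B for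
all i ≤ t (UPB (2)), so b ∈ S iff T^t b ∈ S (induction over EI); the other b are in Icc 1 (2^t B).
(b) y l = 3^l x/2^t. GS 1 (fun _ c => ind S c) t x is the number of the b with l = od t b, c = T^t b ∈ S,
c ≤ y l, b > 0 (PRE (1), (3); od t b ≤ t; the sets Pre t l c are disjoint); such b satisfy
3^l b ≤ 2^t c ≤ 3^l x (PRE (2)), so b ∈ Q: GS ≤ card Q. The other b ∈ Q satisfy, with l = od t b,
y l < T^t b ≤ 3^l (x + 2^t)/2^t = y l + 3^l (UPB (1)), so T^t b ∈ Ioc z (z + 3^l), z = ⌊y l⌋₊; their number is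
at most sum_(l ≤ t) sum_(c ∈ Ioc z (z+3^l)) uT t l c = sum_(l ≤ t) C(t,l) = 2^t (PRD (2) with SMU (2),
SMU (1)). -/
def StyStmt : Prop :=
  ∀ (S : Set ℕ) (B : ℕ), EI S B → ∀ (t : ℕ) (x : ℝ), 0 ≤ x →
    |NS S x - GS 1 (fun _ c => ind S c) t x| ≤ ((B : ℝ) + 1) * 2 ^ t

/-- **Row HSD** (counting functions of invariant sets are almost harmonic, uniformly in S; uses HAR, STY).
PROOF. HAR with K = 2, A0 = 1, F = NS S, μ = fun _ c => ind S c (0 ≤ ind ≤ 1 ≤ 2 log x for x ≥ 2),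
E = B + 1. -/
def HsdStmt : Prop :=
  ∀ p : ℕ, ∃ D x0 : ℝ, 0 ≤ D ∧ 2 ≤ x0 ∧ ∀ (S : Set ℕ) (B : ℕ), EI S B →
    ∀ x : ℝ, x0 ≤ x → ((B : ℝ) + 1) ^ 6 ≤ x ^ 5 →
      |NS S x - NS S (x / 2) - NS S (3 * x / 2) / 3| ≤ D * x / Real.log x ^ p

/-- **Row DEN** (natural density; uses HSD, CVG). PROOF. F = NS S is monotone, 0 ≤ NS S x ≤ x for x ≥ 0
(NS S x ≤ ⌊x⌋₊). HSD with p = 2 for x ≥ max x0 ((B+1)^2) ((B+1)^6 ≤ (B+1)^10 ≤ x^5). CVG. -/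
def DenStmt : Prop :=
  ∀ (S : Set ℕ) (B : ℕ), EI S B → ∃ d : ℝ, 0 ≤ d ∧ Tendsto (fun x : ℝ => NS S x / x) atTop (𝓝 d)

/-- **Row TER** (few integers below y^(6/5) stay above y; uses UPB, SMU, PRD, WR2.PreStmt, WIR.HoeStmt). PROOF.
N = NS {b : ∀ j, y < T^j b} x. If x ≤ y then N = 0 (j = 0). Let x > y, t = Nat.log 2 ⌊x⌋₊, so
2^t ≤ x < 2^(t+1), log y ≤ log x ≤ t + 1. If t < 200: N ≤ x and C ≥ 200^p is enough. Let t ≥ 200. For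
b counted, l = od t b: y < T^t b ≤ 3^l (b + 2^t)/2^t < 3^l * 3 (UPB (1), b ≤ x < 2^(t+1)). And y + 1 ≥
x^(5/6) ≥ 2^(5t/6). So 2^(5t/6) ≤ 3^l * 3 + 1 ≤ 2^(l log_2 3 + 2). If 200 l ≤ 102 t then
(3^l)^200 ≤ 3^(102 t) ≤ 2^(162 t) (3^102 ≤ 2^162), 3^l ≤ 2^(0.81 t), and 2^(5t/6) ≤ 2^(0.81 t + 2) gives
t (5/6 - 81/100) ≤ 2, t ≤ 86, contradiction. So 200 l > 102 t, 2 l - t ≥ t/50. For fixed l the number of the
b ≤ x with od t b = l is at most sum_(c ≤ 3^l (x + 2^t)/2^t) uT t l c ≤ ((x + 2^t)/2^t + 1) C(t,l)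
≤ 4 C(t,l) (T^t b = c, b ∈ Pre t l c; UPB, PRD (1), SMU (1)). HOE: sum of C(t,l) over 2 l - t ≥ t/50 is
≤ 2^t exp(-t/5000). So N ≤ 4 x exp(-t/5000) ≤ C x/(t+1)^p ≤ C x/(log y)^p (log y > 0). -/
def TerStmt : Prop :=
  ∀ p : ℕ, ∃ C : ℝ, 0 ≤ C ∧ ∀ (y : ℕ) (x : ℝ), 2 ≤ y → 1 ≤ x → x ^ 5 ≤ ((y : ℝ) + 1) ^ 6 →
    NS {b | ∀ j, y < T^[j] b} x ≤ C * x / Real.log y ^ p

/-- **Row TAO** (few integers stay above y; uses TER, HSD, MIN). PROOF. D, x0 from HSD for p + 2 (WLOG x0 ≥ 8), C1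
from TER for p + 1, κ from MIN. S = {b : ∀ j, y < T^j b}, EI S y (b > y). v0 = (6/5) log (y+1). If v0 < log x0
then log y ≤ log x0 and C ≥ (log x0)^p suffices (NS S x ≤ x). Otherwise v0 ≥ log x0 ≥ 2. MIN for
f v = -NS S (exp v)/exp v (f ≥ -1): for v ≥ v0, x = exp v ≥ x0, (y+1)^6 ≤ x^5, HSD gives the second
hypothesis. On [v0 - log 2, v0): x = exp v, x^5 ≤ (y+1)^6, x ≥ 1: f v ≥ -C1/(log y)^(p+1) =: m (TER).
MIN: NS S x ≤ (C1/(log y)^(p+1) + κ/v0^(p+1)) x for v ≥ v0, and v0 ≥ log y; for 1 ≤ x < exp v0 TER itself.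
1/(log y)^(p+1) ≤ 2/(log y)^p since log y ≥ log 2 ≥ 1/2. -/
def TaoStmt : Prop :=
  ∀ p : ℕ, ∃ C : ℝ, 0 ≤ C ∧ ∀ (y : ℕ) (x : ℝ), 2 ≤ y → 1 ≤ x →
    NS {b | ∀ j, y < T^[j] b} x ≤ C * x / Real.log y ^ p

/-! ### trees -/

/-- **Row RMU** (multiplicities; uses WR2.PreStmt). Let Z y c = {τ : T^τ c = a, 2^τ ≤ y 3^(od τ c)}. PROOF.
T^τ c = a > 0 needs c > 0 (T 0 = 0), and c ∈ Pre τ (od τ c) a, so 3^l c ≤ 2^τ a, l = od τ c (PRE (1), (2)):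
c ≤ a 2^τ/3^l ≤ a y (part (2)). Let τ0 be the least τ with T^τ c = a; every τ with T^τ c = a is
τ0 + s with T^s a = a, so s = k p0, p0 = minimalPeriod T a, and od τ c = od τ0 c + k q0, q0 = od p0 a; if
p0 = 0 then s = 0 and Z has at most one element. If p0 > 0: 2^p0 > 3^q0 (WR2.H33.two_pow_gt in
Pool/Agent/Helper33_WR2/PDD.lean, there also od_mul), R = 2^p0/3^q0 > 1, and τ ∈ Z y c gives
2^τ0 R^k ≤ y 3^(od τ0 c) ≤ y 2^τ0 a/c, so R^k ≤ a y, k ≤ log (a y)/log R (or y ≤ 0 and Z is empty). So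
Z is finite (1) and for y ≤ x^2: mu a y c ≤ 1 + (log a + 2 log x)/log R ≤ K log x (x ≥ 2) (3). (4)
Z y c ⊆ Z y' c for y ≤ y' (`Set.ncard_le_ncard`); Icc 1 ⌊a x⌋₊ grows. -/
def RmuStmt : Prop :=
  ∀ a : ℕ, 0 < a →
    (∀ (y : ℝ) (c : ℕ), Set.Finite {τ : ℕ | T^[τ] c = a ∧ (2 : ℝ) ^ τ ≤ y * 3 ^ od τ c}) ∧
    (∀ (y : ℝ) (c τ : ℕ), T^[τ] c = a → (2 : ℝ) ^ τ ≤ y * 3 ^ od τ c → 0 < c ∧ (c : ℝ) ≤ a * y) ∧
    (∃ K : ℝ, 0 ≤ K ∧ ∀ (x y : ℝ) (c : ℕ), 2 ≤ x → y ≤ x ^ 2 → mu a y c ≤ K * Real.log x) ∧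
    (∀ (y y' : ℝ), y ≤ y' → (∀ c, mu a y c ≤ mu a y' c) ∧ FR a y ≤ FR a y')

/-- **Row RTY** (t steps back in a tree; uses RMU and WR2.PreStmt, WR2.CmoStmt not needed). PROOF. FR a x is the
number of the pairs (τ, b), b > 0, T^τ b = a, 2^τ ≤ x 3^(od τ b) (they satisfy b ≤ a x by RMU (2); finitely
many). Pairs with τ ≥ t: put c = T^t b, l = od t b ≤ t, τ' = τ - t; then T^τ' c = a, od τ b = l + od τ' c
(`Pool.Agent.WR2.H77.od_add` in Pool/Agent/Helper77_WR2/CMO.lean), and the condition is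
2^τ' ≤ (3^l x/2^t) 3^(od τ' c); conversely (l, c, b ∈ Pre t l c, τ') gives such a pair; so their number
is exactly GS a (mu a) t x (c ≤ a * (3^l x/2^t) by RMU (2)). Pairs with τ < t: at most
sum_(τ < t) #{b > 0 : T^τ b = a} ≤ sum_(τ<t) 2^τ ≤ 2^t (every number has at most two preimages under
T: T c = c' only for c = 2c' and 3c = 2c' - 1; induction). -/
def RtyStmt : Prop :=
  ∀ a : ℕ, 0 < a → ∀ (t : ℕ) (x : ℝ), 0 ≤ x → |FR a x - GS a (mu a) t x| ≤ 2 ^ t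

/-- **Row RSN** (the function s_n; uses RMU, WR2.PreStmt, WIR.FloStmt). PROOF. FR a (2^(n+1)) - FR a (2^n) is the
number of the pairs (τ, b), b > 0, T^τ b = a with 2^n 3^l < 2^τ ≤ 2^(n+1) 3^l, l = od τ b (RMU; finitely many;
for b > a 2^n the set for y = 2^n is empty by RMU (2)). By FLO (2): 2^(Mz (n+1) l) ≤ 2^(n+1) 3^l
< 2^(Mz (n+1) l + 1), so the condition is τ = Mz (n+1) l. So the pairs are the disjoint union over l of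
Pre (Mz (n+1) l) l a (PRE (1)), uT = card (PRE (3)); for l large the terms are 0, and sN is a finite sum. -/
def RsnStmt : Prop :=
  ∀ a : ℕ, 0 < a → ∀ n : ℕ, FR a (2 ^ n) ≤ FR a (2 ^ (n + 1)) ∧
    sN (n + 1) a = ENNReal.ofReal (FR a (2 ^ (n + 1)) - FR a (2 ^ n))

open Classical in
/-- (proved: `Pool.Agent.WR2.H33.pdd done_pre done_flo`) -/
def PddStmt : Prop :=
  ∀ a : ℕ, 0 < a → ∃ K : ℕ, 0 < K ∧ ∀ n L : ℕ,
    ∑ l ∈ Finset.range L, uT (Mz n l) l a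
      ≤ K * ((Finset.Icc 1 (2 ^ n * a)).filter (fun b => ∃ j, T^[j] b = a)).card

/-- **Row RLI** (linear bound; uses RMU, RSN, PDD). PROOF. By PDD all partial sums of sN n a are ≤ K 2^n a, so
sN (n+1) a ≤ K 2^(n+1) a and FR a (2^(n+1)) - FR a (2^n) ≤ K a 2^(n+1) (RSN). Sum: FR a (2^n) ≤ FR a 1 +
2 K a 2^n. For x ≥ 1 let n with 2^n ≤ x < 2^(n+1); FR a x ≤ FR a (2^(n+1)) (RMU (4)). (2): by RSN and PDD,
with P = PT a: NS (PT a) (2^n a) is the cardinality on the right of PDD. -/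
def RliStmt : Prop :=
  ∀ a : ℕ, 0 < a → (∃ C : ℝ, ∀ x : ℝ, 1 ≤ x → FR a x ≤ C * x) ∧
    (∃ K : ℝ, 0 < K ∧ ∀ n : ℕ, FR a (2 ^ (n + 1)) - FR a (2 ^ n) ≤ K * NS (PT a) (2 ^ (n + 1) * a))

/-- **Row RHO** (the limit exists for every tree; uses HAR, RMU, RTY, RLI, CVG). PROOF. HAR with p = 2, A0 = a, K from
RMU (3), F = FR a, μ = mu a (≥ 0), E = 1 (1 ≤ x^5); RTY. FR a ≥ 0 is monotone (RMU (4)), linear bound by
RLI. CVG. -/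
def RhoStmt : Prop :=
  ∀ a : ℕ, 0 < a → ∃ ρ : ℝ, 0 ≤ ρ ∧ Tendsto (fun x : ℝ => FR a x / x) atTop (𝓝 ρ)

/-- **Row RFU** (functional equation; uses RMU). PROOF. FR a x is the number of the pairs (τ, b), b > 0,
T^τ b = a, 2^τ ≤ x 3^(od τ b) (b ≤ a x automatically, RMU (2)). τ = 0: b = a, the condition is 1 ≤ x.
τ = τ' + 1: c = T^τ' b > 0, T c = a: c = 2a (even) or 3c = 2a - 1 (c odd, 3 ∣ 2a - 1), od τ b = od τ' b + (0 or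
1): the condition is 2^τ' ≤ (x/2) 3^(od τ' b), or 2^τ' ≤ (3x/2) 3^(od τ' b). -/
def RfuStmt : Prop :=
  ∀ a : ℕ, 0 < a → ∀ x : ℝ, 0 ≤ x → FR a x = (if 1 ≤ x then 1 else 0) + FR (2 * a) (x / 2)
    + (if 3 ∣ 2 * a - 1 then FR ((2 * a - 1) / 3) (3 * x / 2) else 0)

end Pool.Agent.WR3
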