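import Pool.Agent.WR2.StmtsC

/-!
WR3: for EVERY positive integer `a` the limit of `s_n(a)/sbar_n` exists, every predecessor set of the
3x+1 map has a natural density, and every set of positive integers that is invariant under the 3x+1 map
beyond some point has a natural density (MP_0f3fac_nt). Definitions of the squad. The 3x+1 map `T`,
the counts `uT`, `cnt`, `Mz`, `en`, `sbar` are those of WIR (Pool/Agent/WIR/Defs.lean, DefsE.lean), and
`od`, `Pre`, `PS`, `Lv`, `av`, `sN` are those of WR2 (Pool/Agent/WR2/Defs.lean).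

PAPER PROOF (complete; details in the docstrings of the rows). Let F be a counting function (of an
invariant set S: F(x) = number of elements up to x; of a tree: F(x) = FR a x). Going back t steps,
F(x) is the sum over l and over the counted points c below the level y_l = 3^l x/2^t of the number
uT t l c of the b above c with l odd steps, up to an error O(2^t) (STY, RTY). Compare t + 1 steps for x
with t steps for x/2 and for 3x/2: the levels are the same, so
F(x) - F(x/2) - F(3x/2)/3 = sum_l sum_(c below y_l) dl t l c + O(2^t),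
where dl t l c = uT (t+1) l c - uT t l c - uT t (l-1) c/3 is small in the mean over the classes mod 3^l
(DEL: smaller than every power of t; this is the Fourier decay TEL of WIR together with the fact
that F_m(O) depends on the first m elements of the word O only). So f(v) = F(e^v)/e^v satisfies
f(v) = (f(v - log 2) + f(v + log (3/2)))/2 + O(v^(-p)) for every p (HAR). A maximum principle (MIN: the
random walk drifts to the left) and the fact that 3^k/2^r can be very close to 1 (DIR, SPD) show that
f(v) converges (CVG).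
-/

namespace Pool.Agent.WR3

open Pool.Agent.WIR Pool.Agent.WR2
open scoped BigOperators ENNReal Topology
open Filter

/-- the defect of harmonicity of the counts. -/
noncomputable def dl (t l a : ℕ) : ℝ :=
  (uT (t + 1) l a : ℝ) - (uT t l a : ℝ) - (if l = 0 then 0 else (uT t (l - 1) a : ℝ) / 3)

/-- the sum after `t` steps backwards: `μ y c` is the number of counted points with value `c` below
the level `y` (they satisfy `c ≤ A0 y`). -/
noncomputable def GS (A0 : ℝ) (μ : ℝ → ℕ → ℝ) (t : ℕ) (x : ℝ) : ℝ :=
  ∑ l ∈ Finset.range (t + 1), ∑ c ∈ Finset.Icc 1 ⌊A0 * (3 ^ l * x / 2 ^ t)⌋₊,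
    μ (3 ^ l * x / 2 ^ t) c * (uT t l c : ℝ)

/-- `S` is invariant under the 3x+1 map beyond `B`. -/
def EI (S : Set ℕ) (B : ℕ) : Prop := ∀ b, B < b → (b ∈ S ↔ T b ∈ S)

open Classical in
/-- the number of the elements of `S` in `[1, x]`. -/
noncomputable def NS (S : Set ℕ) (x : ℝ) : ℝ :=
  (((Finset.Icc 1 ⌊x⌋₊).filter (fun b => b ∈ S)).card : ℝ)

open Classical in
/-- indicator function. -/
noncomputable def ind (S : Set ℕ) (c : ℕ) : ℝ := if c ∈ S then 1 else 0

/-- the predecessor set of `a`. -/
def PT (a : ℕ) : Set ℕ := {b | ∃ j, T^[j] b = a}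

/-- the number of the `τ` with `T^τ c = a` and `2^τ ≤ y 3^(od τ c)`. -/
noncomputable def mu (a : ℕ) (y : ℝ) (c : ℕ) : ℝ :=
  (Set.ncard {τ : ℕ | T^[τ] c = a ∧ (2 : ℝ) ^ τ ≤ y * 3 ^ od τ c} : ℝ)

/-- the number of the pairs `(τ, c)`, `c > 0`, with `T^τ c = a` and `2^τ ≤ x 3^(od τ c)`. -/
noncomputable def FR (a : ℕ) (x : ℝ) : ℝ := ∑ c ∈ Finset.Icc 1 ⌊(a : ℝ) * x⌋₊, mu a x c

/-- conclusion of COR of WR2 for one integer. -/
def Dn (c : ℝ) (n0 a : ℕ) : Prop :=
  ∀ n, n0 ≤ n → ∃ L : ℕ, c * 2 ^ n ≤ ∑ l ∈ Finset.range L, (uT (Mz n l) l a : ℝ)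

end Pool.Agent.WR3
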