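import Pool.Agent.WR3.StmtsB

/-!
WR3, block C: the mean value, dense elements, final theorem. The docstrings contain the complete proofs.
-/

namespace Pool.Agent.WR3

open Pool.Agent.WIR Pool.Agent.WR2
open scoped BigOperators ENNReal Topology
open Filter

/-- **Row MCV** (the mean value divided by 2^n converges; uses CVG, WR2.UsbStmt, WIR.TybStmt (summability)).
PROOF. g t l = C(t,l)/3^l, F x = sum over all pairs (t,l) with 3^l < 2^t and 2^t ≤ x 3^l of g t l (a sum of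
nonnegative terms; it is convenient to define it first as a `tsum` in ℝ≥0∞). 3^l < 2^t iff
t ≥ Nat.log 2 (3^l) + 1 = Mz 1 l; 2^t ≤ 2^N 3^l iff t ≤ Mz N l; so F (2^N) = sum_(n=1..N) sum_l en n l
(finite, TYB; ≤ 42 * 2^(N+1) by USB; for each l every t in Ioc (Mz 0 l) (Mz N l) is one Mz n l), F is
monotone, F x ≤ F (2^N) ≤ 168 x for 2^(N-1) ≤ x ≤ 2^N, x ≥ 1. Pascal: g (t+1) l = g t l + (1/3) g t (l-1)
(second term only for l ≥ 1); all pairs in F have t ≥ 1, so for x ≥ 2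
F x = sum_(3^l < 2^(t+1) ≤ x 3^l) g t l + (1/3) sum_(3^(l+1) < 2^(t+1) ≤ x 3^(l+1)) g t l
= (F (x/2) + c1) + (1/3) (F (3x/2) - c2), c1 = sum over 3^l/2 < 2^t ≤ 3^l of g t l = sum_l en 0 l ≤
sum_l en 1 l (C(M,l) ≤ C(M+1,l)), c2 = sum over 3^l < 2^t ≤ (3/2) 3^l of g t l ≤ sum_l en 1 l (the
conditions are 3^l/2 < 2^t ≤ (x/2) 3^l and (3/2) 3^l < 2^t ≤ (3x/2) 3^l). So |F x - F (x/2) - F (3x/2)/3| ≤
c1 + c2 ≤ D x/(log x)^2. CVG: F x/x → ρ, and sum_l en n l = F (2^n) - F (2^(n-1)) for n ≥ 1, so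
(sum_l en n l)/2^n → ρ - ρ/2. -/
def McvStmt : Prop :=
  ∃ σ : ℝ, 0 ≤ σ ∧ Tendsto (fun n : ℕ => (∑' l, en n l) / 2 ^ n) atTop (𝓝 σ)

/-- **Row SLB** (lower bound for the mean; uses WR2.GwdStmt, WR2.BwdStmt, WIR.WmsStmt, WIR.FloStmt, WIR.TybStmt).
PROOF. n ≥ 400, r = 12, K = 7 (n+1). GWD with l1 = 0, y = n (2 ≤ n, 36 ≤ n), summed over z ∈ Z/3^12:
M2 0 n l = n + Nat.log 2 (3^l) = Mz n l; sum_z cnt M {l} r z = C(M,l) (fibres of O ↦ FO r O over the subsets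
of Icc 1 M with l elements); sum_z bz K r z = card (bd K r) ≤ 2^K (exp(-2) + exp(-K/800)) (BWD (2), (1));
sum_z W r z ≥ (1 - exp(-2)) 3^r (WMS). Divide by 3^r: sum_(l ∈ RS 0 n 12 K) C(Mz n l,l)/2^(Mz n l) ≥
1 - 2 exp(-2) - exp(-3) ≥ 1/2. By FLO (2) 1/3^l ≥ 2^n/2^(Mz n l + 1), so en n l ≥ (2^n/2) C(Mz n l,l)/2^(Mz n l),
and sum' en n l ≥ the finite sum over RS ≥ 2^n/4 (en ≥ 0, summable by TYB, `Summable.sum_le_tsum`). -/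
def SlbStmt : Prop :=
  ∃ n0 : ℕ, ∀ n : ℕ, n0 ≤ n → 2 ^ n / 4 ≤ ∑' l, en n l

open Classical in
/-- (proved: `Pool.Agent.WR2.H33.cor_allX done_cor`) -/
def AlxStmt : Prop :=
  ∀ ε : ℝ, 0 < ε → ∃ c : ℝ, 0 < c ∧ ∃ n0 X0 : ℕ, ∀ X : ℕ, X0 ≤ X →
    (((Finset.Icc 1 X).filter (fun a => ¬ 3 ∣ a ∧ ¬ Dn c n0 a)).card : ℝ) ≤ ε * X

/-- **Row DNS** (uses ALX). PROOF. S = PT a, d > 0. Suppose there is no such b. S' = {b ∈ S : ¬ 3 ∣ b}; every b > 0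
in S' satisfies ¬ Dn c n0 b for all c > 0, n0, so by ALX NS S' x ≤ ε x for large x, for every ε. Let x ≥ 1.
b ∈ S, b ≤ x, b ≠ a gives T b ∈ S. Even b ≠ a: b ↦ b/2 injective into S ∩ [1, x/2]. Odd b ≠ a:
T b = (3b+1)/2 ≤ 2x, not divisible by 3 (3b + 1 is not), in S', injective. So NS S x ≤ 1 + NS S (x/2) +
NS S' (2x). Divide by x → ∞: d ≤ 0 + d/2 + 2ε for every ε > 0, contradiction. -/
def DnsStmt : Prop :=
  ∀ (a : ℕ) (d : ℝ), 0 < a → 0 < d → Tendsto (fun x : ℝ => NS (PT a) x / x) atTop (𝓝 d) →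
    ∃ b j : ℕ, 0 < b ∧ T^[j] b = a ∧ ¬ 3 ∣ b ∧ ∃ c : ℝ, 0 < c ∧ ∃ n0 : ℕ, Dn c n0 b

/-- **Row PRH** (positivity of the limit; uses RSN, RFU, RHO). PROOF. ρ b = lim FR b x/x (RHO; unique). Dn c n0 b: for n ≥ n0, n ≥ 1:
c 2^n ≤ a partial sum of sN n b (in ENNReal), so FR b (2^n) - FR b (2^(n-1)) ≥ c 2^n (RSN); divide by 2^n:
ρ b/2 ≥ c, ρ b > 0. If c' = T b' then b' = 2c' or 3b' = 2c' - 1, and RFU (all terms ≥ 0) gives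
FR c' x ≥ FR b' (x/2) or FR b' (3x/2), so ρ c' ≥ ρ b'/2; induction on j: ρ (T^j b) > 0. -/
def PrhStmt : Prop :=
  ∀ (b j : ℕ) (c : ℝ) (n0 : ℕ) (ρ : ℝ), 0 < b → 0 < c → Dn c n0 b →
    Tendsto (fun x : ℝ => FR (T^[j] b) x / x) atTop (𝓝 ρ) → 0 < ρ

end Pool.Agent.WR3
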