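import Pool.Agent.WR2.Done
import Pool.Agent.WR3.StmtsC
import Pool.Agent.Helper21_WR3.CNS
import Pool.Agent.Helper33_WR3.SMU
import Pool.Agent.Helper58_WR3.DTY
import Pool.Agent.Helper74_WR3.DEL
import Pool.Agent.Helper75_WR3.PRD
import Pool.Agent.Helper33_WR3.HAR
import Pool.Agent.Helper66_WR3.MIN
import Pool.Agent.Helper33_WR3.DIR
import Pool.Agent.Helper65_WR3.SPD
import Pool.Agent.Helper5_WR3.CVG
import Pool.Agent.Helper42_WR3.UPB
import Pool.Agent.Helper60_WR3.STY
import Pool.Agent.Helper81_WR3.HSD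
import Pool.Agent.Helper19_WR3.DEN
import Pool.Agent.Helper3_WR3.TER
import Pool.Agent.Helper95_WR3.TAO
import Pool.Agent.Helper19_WR3.RMU
import Pool.Agent.Helper7_WR3.RTY
import Pool.Agent.Helper39_WR3.RSN
import Pool.Agent.Helper33_WR3.BAS
import Pool.Agent.Helper81_WR3.RLI
import Pool.Agent.Helper33_WR3.RHO
import Pool.Agent.Helper17_WR3.RFU
import Pool.Agent.Helper77_WR3.MCV
import Pool.Agent.Helper33_WR3.SLB
import Pool.Agent.Helper38_WR3.DNS
import Pool.Agent.Helper76_WR3.PRH

/-! WR3: assembly of all rows. -/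

namespace Pool.Agent.WR3

theorem done_cns : CnsStmt := Pool.Agent.WR3.H21.cns

theorem done_smu : SmuStmt := Pool.Agent.WR3.H33.smu Pool.Agent.WR2.done_pre Pool.Agent.WR2.done_ava Pool.Agent.WR2.done_lvm

theorem done_dty : DtyStmt := Pool.Agent.WR3.H58.dty done_cns Pool.Agent.WIR.done_cod Pool.Agent.WIR.done_tel Pool.Agent.WR2.done_ava

theorem done_del : DelStmt := Pool.Agent.WR3.H74.del done_smu done_dty Pool.Agent.WIR.done_hoe

theorem done_prd : PrdStmt := Pool.Agent.WR3.H75.prd

theorem done_har : HarStmt := Pool.Agent.WR3.H33.har done_smu done_del done_prd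

theorem done_min : MinStmt := Pool.Agent.WR3.H66.min

theorem done_dir : DirStmt := Pool.Agent.WR3.H33.dir

theorem done_spd : SpdStmt := Pool.Agent.WR3.H65.spd done_dir

theorem done_cvg : CvgStmt := Pool.Agent.WR3.H5.cvg done_min done_spd

theorem done_upb : UpbStmt := Pool.Agent.WR3.H42.upb

theorem done_sty : StyStmt := Pool.Agent.WR3.H60.sty done_upb done_smu done_prd Pool.Agent.WR2.done_pre

theorem done_hsd : HsdStmt := Pool.Agent.WR3.H81.hsd done_har done_sty

theorem done_den : DenStmt := Pool.Agent.WR3.H19.den done_hsd done_cvg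

theorem done_ter : TerStmt := Pool.Agent.WR3.H3.ter done_upb done_smu done_prd Pool.Agent.WR2.done_pre Pool.Agent.WIR.done_hoe

theorem done_tao : TaoStmt := Pool.Agent.WR3.H95.tao done_ter done_hsd done_min

theorem done_rmu : RmuStmt := Pool.Agent.WR3.H19.rmu Pool.Agent.WR2.done_pre

theorem done_rty : RtyStmt := Pool.Agent.WR3.H7.rty done_rmu Pool.Agent.WR2.done_pre

theorem done_rsn : RsnStmt := Pool.Agent.WR3.H39.rsn done_rmu Pool.Agent.WR2.done_pre Pool.Agent.WIR.done_flo

theorem done_pdd : PddStmt := Pool.Agent.WR3.H33.pdd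

theorem done_rli : RliStmt := Pool.Agent.WR3.H81.rli done_rmu done_rsn done_pdd

theorem done_rho : RhoStmt := Pool.Agent.WR3.H33.rho done_har done_rmu done_rty done_rli done_cvg

theorem done_rfu : RfuStmt := Pool.Agent.WR3.H17.rfu done_rmu

theorem done_mcv : McvStmt := Pool.Agent.WR3.H77.mcv done_cvg Pool.Agent.WR2.done_usb Pool.Agent.WIR.done_tyb

theorem done_slb : SlbStmt := Pool.Agent.WR3.H33.slb Pool.Agent.WR2.done_gwd Pool.Agent.WR2.done_bwd Pool.Agent.WIR.done_wms Pool.Agent.WIR.done_flo Pool.Agent.WIR.done_tyb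

theorem done_alx : AlxStmt := Pool.Agent.WR3.H33.alx

theorem done_dns : DnsStmt := Pool.Agent.WR3.H38.dns done_alx

theorem done_prh : PrhStmt := Pool.Agent.WR3.H76.prh done_rsn done_rfu done_rho

end Pool.Agent.WR3
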