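import Pool.Agent.WR3.Defs

/-!
WR3, block A: harmonicity. The docstrings contain the complete proofs. Proved rows of WIR and WR2 are
taken as hypotheses (`TelStmt`, `HoeStmt`, `CodStmt`, `PreStmt`, `LvmStmt`, `AvaStmt`, ...; the
statements are in Pool/Agent/WIR/Stmts*.lean and Pool/Agent/WR2/Stmts*.lean).
-/

namespace Pool.Agent.WR3

open Pool.Agent.WIR Pool.Agent.WR2
open scoped BigOperators ENNReal Topology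
open Filter

/-- **Row CNS** (split at the last position; no hypotheses). PROOF. O ⊆ Icc 1 (t+1), |O| = l. If t+1 ∉ O
then O ⊆ Icc 1 t. If t+1 ∈ O then O = insert (t+1) O' with O' ⊆ Icc 1 t, |O'| = l - 1 (l ≥ 1), rk O p =
rk O' p for p ∈ O' (p < t+1), and rk O (t+1) = l - 1 ≥ m, so 3^(l-1) = 0 in Z/3^m and FO m O = FO m O'.
(`Finset.powerset_insert`-like split of the powerset of Icc 1 (t+1) = insert (t+1) (Icc 1 t).) -/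
def CnsStmt : Prop :=
  ∀ (t m l : ℕ) (z : ZMod (3 ^ m)), m + 1 ≤ l →
    cnt (t + 1) {l} m z = cnt t {l} m z + cnt t {l - 1} m z

/-- **Row SMU** (sums over a period; uses PRE, AVA, LVM of WR2). PROOF. PS t l 1 a = card Pre t l a =
uT t l a (PRE (3)). LVM with f = 1, N = 0: Lv (0+l) (PS t l 1), this gives (2) (induction on k), and
av (0+l) (PS t l 1) = C(t,l)/3^l * av 0 1 = C(t,l)/3^l: (1). (3) AVA (1) with N = l, N' = l+1: the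
averages over Icc 1 (3^l) and Icc 1 (3^(l+1)) are the same. (4) uT t l a = card Pre t l a = 0 for
l > t, PRE (3), (4). -/
def SmuStmt : Prop :=
  (∀ t l : ℕ, ∑ a ∈ Finset.Icc 1 (3 ^ l), uT t l a = t.choose l) ∧
  (∀ t l a k : ℕ, 0 < a → uT t l (a + k * 3 ^ l) = uT t l a) ∧
  (∀ t l : ℕ, ∑ a ∈ Finset.Icc 1 (3 ^ (l + 1)), uT t l a = 3 * t.choose l) ∧
  (∀ t l a : ℕ, t < l → uT t l a = 0)

/-- **Row DTY** (typical l; uses CNS and WIR.CodStmt, WIR.TelStmt, WR2.AvaStmt). PROOF. C1 from TEL for the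
exponent p; C = 4 C1. By COD, for a > 0, uT M l a = cnt M {l} l (a : ZMod (3^l)). By CNS
3^m/3^l cnt (t+1) {l} m z - 3^m/3^l cnt t {l} m z - (1/3) (3^m/3^(l-1)) cnt t {l-1} m z = 0 with
z = (a : ZMod (3^m)), so |dl t l a| ≤ D1 a + D2 a + D3 a/3 with
D1 a = |cnt (t+1) {l} l a - 3^m/3^l cnt (t+1) {l} m a|, D2 a = |cnt t {l} l a - 3^m/3^l cnt t {l} m a|,
D3 a = |cnt t {l-1} (l-1) a - 3^m/3^(l-1) cnt t {l-1} m a|. By AVA (2) the sum of D1 over Icc 1 (3^l) is the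
sum over ZMod (3^l) in TEL (pj m l (a : ZMod (3^l)) = (a : ZMod (3^m)): `ZMod.val_natCast`, 3^m divides
3^l): at most C1/(m+1)^p 2^(t+1) (8 l ≤ 5 (t+1)), the same for D2 with 2^t. D3 has period 3^(l-1), so
its sum over Icc 1 (3^l) is 3 times the sum over ZMod (3^(l-1)) (AVA (1), (2)): at most
3 C1/(m+1)^p 2^t. Total (2 + 1 + 1) C1 2^t/(m+1)^p. -/
def DtyStmt : Prop :=
  ∀ p : ℕ, ∃ C : ℝ, 1 ≤ C ∧ ∀ t m l : ℕ, m + 1 ≤ l → 8 * l ≤ 5 * t →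
    ∑ a ∈ Finset.Icc 1 (3 ^ l), |dl t l a| ≤ C * 2 ^ t / ((m : ℝ) + 1) ^ p

/-- **Row DEL** (all l together; uses SMU, DTY, WIR.HoeStmt). PROOF. Always (all three terms are ≥ 0)
sum_(a ∈ Icc 1 (3^l)) |dl t l a| ≤ C(t+1,l) + C(t,l) + C(t,l-1) = 2 C(t+1,l) (SMU (1), (3); Pascal; l = 0:
1 + 1 = 2). So the whole sum is ≤ 2 * 2^(t+1) = 4 * 2^t; this is enough for t < 8 (C ≥ 4 * 9^p). Let
t ≥ 8. Typical l: t + 4 ≤ 4 l and 8 l ≤ 5 t: DTY with m = t/8 (m + 1 ≤ t/4 + 1 ≤ l) and p + 1 in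
place of p: each ≤ C1 2^t/(m+1)^(p+1), m + 1 ≥ (t+1)/8, at most t + 2 ≤ 2 (t+1) values of l: together
≤ 2 * 8^(p+1) C1 2^t/(t+1)^p. l with 4 l < t + 4: (t+1) - 2 l ≥ (t-2)/2 =: u, l with 8 l > 5 t:
2 l - (t+1) ≥ t/4 - 1 =: u'. HOE (s = t+1): sum of C(t+1,l) over these l is at most
2^(t+1) (exp(-u²/(2(t+1))) + exp(-u'²/(2(t+1)))), and u, u' ≥ t/8 (t ≥ 8; use u := t/8 in both cases,
the filtered set is larger), u²/(2(t+1)) ≥ t²/(144 t) = t/144. exp(-t/144) ≤ C2/(t+1)^p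
(`Real.pow_div_factorial_le_exp` or `Real.tendsto_pow_mul_exp_neg_atTop_nhds_zero`). -/
def DelStmt : Prop :=
  ∀ p : ℕ, ∃ C : ℝ, 1 ≤ C ∧ ∀ t : ℕ,
    ∑ l ∈ Finset.range (t + 2), ∑ a ∈ Finset.Icc 1 (3 ^ l), |dl t l a|
      ≤ C * 2 ^ t / ((t : ℝ) + 1) ^ p

/-- **Row PRD** (partial periods; no hypotheses). PROOF. g (a + k 3^l) = g a for a > 0 (induction), so the sum
over Icc 1 (k 3^l) is k times the sum P over Icc 1 (3^l). (1) k = ⌊Y⌋₊ / 3^l + 1 (natural division):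
⌊Y⌋₊ ≤ k 3^l and k ≤ Y/3^l + 1. (2) induction on z: Ioc (z+1) (z+1+3^l) arises from Ioc z (z+3^l) by
removing z+1 and adding z+1+3^l, g (z+1+3^l) = g (z+1). -/
def PrdStmt : Prop :=
  ∀ (l : ℕ) (g : ℕ → ℝ), (∀ a, 0 ≤ g a) → (∀ a, 0 < a → g (a + 3 ^ l) = g a) →
    (∀ Y : ℝ, 0 ≤ Y → ∑ a ∈ Finset.Icc 1 ⌊Y⌋₊, g a
      ≤ (Y / 3 ^ l + 1) * ∑ a ∈ Finset.Icc 1 (3 ^ l), g a) ∧
    (∀ z : ℕ, ∑ a ∈ Finset.Ioc z (z + 3 ^ l), g a = ∑ a ∈ Finset.Icc 1 (3 ^ l), g a)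

/-- **Row HAR** (almost harmonic; uses SMU, DEL, PRD). PROOF. C from DEL with exponent p + 1. Let x ≥ x0 ≥
2^24, T1 = log x/log 2, t the natural number with 12 (t+1) ≤ T1 < 12 (t+2); so 2^(12 (t+1)) ≤ x,
t + 1 ≥ T1/24 ≥ log x/24 (log 2 < 1). Apply the third hypothesis to (t+1, x), (t, x/2), (t, 3x/2)
(2^(t+1) ≤ x). With y l = 3^l x/2^(t+1): the l-th level of GS (t+1) x is y l, the l-th level of GS t (x/2) is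
3^l (x/2)/2^t = y l, the l-th level of GS t (3x/2) is y (l+1). As uT t (t+1) = 0 (SMU (4)) the sum for
(t, x/2) can be extended to range (t+2), and the sum for (t, 3x/2) becomes, with l+1 in place of l, a sum
over 1 ≤ l < t+2 of uT t (l-1) (`Finset.sum_range_succ'`). So
GS (t+1) x - GS t (x/2) - GS t (3x/2)/3 = sum_(l < t+2) sum_(c ∈ Icc 1 ⌊A0 y l⌋₊) μ (y l) c * dl t l c.
y l ≤ (3/2)^(t+1) x ≤ 2^(t+1) x ≤ x^2 for l ≤ t+1, so 0 ≤ μ (y l) c ≤ K log x. PRD for g = |dl t l ·|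
(period 3^l by SMU (2); uT t (l-1) has period 3^(l-1), so 3^l): sum_(c ≤ A0 y l) |dl t l c| ≤
(A0 y l/3^l + 1) P_l = (A0 x/2^(t+1) + 1) P_l ≤ (A0 x/2^t) P_l (A0 x/2^(t+1) ≥ 1), P_l the sum over
Icc 1 (3^l); the sum over l of P_l is ≤ C 2^t/(t+1)^(p+1) (DEL). So the main term is
≤ K log x A0 x C/(t+1)^(p+1) ≤ K A0 C 24^(p+1) x/(log x)^p. Errors: E (2^(t+1) + 2^t + 2^t/3) ≤ 3 E 2^(t+1)
≤ 3 x^(5/6) x^(1/12) = 3 x/x^(1/12) (E ≤ x^(5/6) since E^6 ≤ x^5; 2^(t+1) ≤ x^(1/12)) ≤ x/(log x)^p for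
x ≥ x0 (`isLittleO_log_rpow_atTop`-like; or bounded by a constant times it). -/
def HarStmt : Prop :=
  ∀ (p : ℕ) (K A0 : ℝ), 0 ≤ K → 1 ≤ A0 → ∃ D x0 : ℝ, 0 ≤ D ∧ 2 ≤ x0 ∧
    ∀ (F : ℝ → ℝ) (μ : ℝ → ℕ → ℝ) (E : ℝ), 0 ≤ E → (∀ y c, 0 ≤ μ y c) →
      (∀ (x y : ℝ) (c : ℕ), 2 ≤ x → y ≤ x ^ 2 → μ y c ≤ K * Real.log x) →
      (∀ (t : ℕ) (x : ℝ), 2 ^ t ≤ x → |F x - GS A0 μ t x| ≤ E * 2 ^ t) →
      ∀ x : ℝ, x0 ≤ x → E ^ 6 ≤ x ^ 5 →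
        |F x - F (x / 2) - F (3 * x / 2) / 3| ≤ D * x / Real.log x ^ p

/-! ### convergence -/

/-- **Row MIN** (minimum principle; no hypotheses). PROOF. α = log 2, β = log (3/2), γ = (α - β)/2 > 0
(log (3/2) < log 2). κ' = D/γ, κ = 2^(p+1) κ'. Barrier φ v = -κ'/v^(p+1) for v > 0. Claim: for v ≥ v0 (≥ 2)
φ v - (φ (v-α) + φ (v+β))/2 ≥ D/v^(p+2). Proof: x ↦ x^(-(p+1)) is convex on (0,∞) (`convexOn_zpow`), so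
((v-α)^(-(p+1)) + (v+β)^(-(p+1)))/2 ≥ (v-γ)^(-(p+1)), and (v/(v-γ))^(p+1) ≥ (1 + γ/v)^(p+1) ≥
1 + (p+1) γ/v ≥ 1 + γ/v (Bernoulli; v² ≥ v² - γ²). Let δ > 0, G v = f v + φ v + δ (v - v0 + α), considered
for v ≥ v0 - α > 0; it is bounded below. For v ≥ v0: G v ≥ (G (v-α) + G (v+β))/2 + δ γ
(the linear part: v - ((v-α) + (v+β))/2 = γ). Let m' = inf of G on [v0-α, ∞) (`csInf`). On [v0-α, v0):
G v ≥ m - κ'/(v0-α)^(p+1) ≥ m - κ/v0^(p+1) =: m'' (v0 - α ≥ v0/2 as v0 ≥ 2 ≥ 2α). On [v0, ∞):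
G v ≥ m' + δ γ. So m' ≥ min m'' (m' + δγ), hence m' ≥ m''. So for v ≥ v0: f v ≥ m'' - φ v - δ (v - v0 + α)
≥ m'' - δ (v - v0 + α) for every δ > 0; δ → 0. -/
def MinStmt : Prop :=
  ∀ (p : ℕ) (D : ℝ), 0 ≤ D → ∃ κ : ℝ, 0 ≤ κ ∧ ∀ (f : ℝ → ℝ) (v0 m B : ℝ), 2 ≤ v0 →
    (∀ v, v0 - Real.log 2 ≤ v → -B ≤ f v) →
    (∀ v, v0 ≤ v →
      (f (v - Real.log 2) + f (v + Real.log (3 / 2))) / 2 - D / v ^ (p + 2) ≤ f v) →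
    (∀ v, v0 - Real.log 2 ≤ v → v < v0 → m ≤ f v) →
    ∀ v, v0 ≤ v → m - κ / v0 ^ (p + 1) ≤ f v

/-- **Row DIR** (no hypotheses). PROOF. ξ = log 3/log 2. n with log 2/(n+1) ≤ η.
`Real.exists_nat_abs_mul_sub_round_le` gives 0 < k ≤ n with |k ξ - round (k ξ)| ≤ 1/(n+1) (≤ 1/2). k ξ ≥ 1.58 k
(3^50 ≥ 2^79) so round (k ξ) ≥ k ξ - 1/2 ≥ k; put r = round (k ξ) as a natural number and multiply by log 2.
k log 3 = r log 2 would give 3^k = 2^r, impossible for k ≥ 1 (parity). -/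
def DirStmt : Prop :=
  ∀ η : ℝ, 0 < η → ∃ k r : ℕ, 1 ≤ k ∧ k ≤ r ∧ 0 < |(k : ℝ) * Real.log 3 - r * Real.log 2| ∧
    |(k : ℝ) * Real.log 3 - r * Real.log 2| ≤ η

/-- **Row SPD** (spreading; uses DIR). PROOF. α = log 2, β = log (3/2). WLOG ε ≤ 1.
η = ε/(4 (M+1)); k, r from DIR, θ = k log 3 - r log 2 = k β - (r-k) α. J = natural number with J |θ| ≥ α,
Nn = J r, δ = ε/(2 * 5^Nn) (≤ 1). By the hypotheses there is V1 ≥ V such that for v ≥ V1: f v ≤ M + δ and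
|f v - (f (v-α) + f (v+β))/2| ≤ δ; take v* ≥ V1 + (Nn+1) α with f v* ≥ M - δ. Claim: for i + j = n ≤ Nn:
f (v* - iα + jβ) ≥ M - 5^n δ. Induction: v' = v* - iα + jβ ≥ V1 + α; f v' ≥ M - 5^n δ gives
f (v'-α) ≥ 2 f v' - 2δ - f (v'+β) ≥ 2 (M - 5^n δ) - 2δ - (M + δ) ≥ M - 5^(n+1) δ, and in the same way
f (v'+β). So f (v* + jθ) ≥ M - ε/2 for all j ≤ J (use j k steps β and j (r-k) steps -α). If θ > 0 put
v0 = v* + α: for v ∈ [v*, v*+α) let j = ⌊(v-v*)/θ⌋₊ ≤ J and v_j = v* + jθ, v_j ≤ v ≤ v_j + η. If θ < 0 put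
v0 = v*: for v ∈ [v*-α, v*) let j = ⌈(v*-v)/|θ|⌉₊ ≤ J and v_j = v* - j|θ| ≤ v ≤ v_j + η. In both cases
f v ≥ exp (v_j - v) f v_j ≥ (1 - η) f v_j ≥ f v_j - η (M + 1) ≥ M - ε/2 - ε/4 (f v_j ≤ M + δ ≤ M + 1). -/
def SpdStmt : Prop :=
  ∀ (f : ℝ → ℝ) (M : ℝ), 0 ≤ M → (∀ v, 0 ≤ f v) →
    (∀ v w, v ≤ w → Real.exp (v - w) * f v ≤ f w) →
    (∀ ε > (0 : ℝ), ∃ V : ℝ, ∀ v ≥ V, f v ≤ M + ε) →
    (∀ ε > (0 : ℝ), ∀ V : ℝ, ∃ v ≥ V, M - ε ≤ f v) →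
    (∀ ε > (0 : ℝ), ∃ V : ℝ, ∀ v ≥ V,
      |f v - (f (v - Real.log 2) + f (v + Real.log (3 / 2))) / 2| ≤ ε) →
    ∀ ε > (0 : ℝ), ∀ V : ℝ, ∃ v0 ≥ V, ∀ v, v0 - Real.log 2 ≤ v → v < v0 → M - ε ≤ f v

/-- **Row CVG** (convergence; uses MIN, SPD). PROOF. f v = F (exp v)/exp v. f ≥ 0; f v ≤ C for v ≥ 0; for
v ≤ w: exp (v-w) f v = F (exp v)/exp w ≤ f w; f (v - log 2)/2 = F (x/2)/x and f (v + log (3/2))/2 =
F (3x/2)/(3x) for x = exp v, so |f v - (..)/2| ≤ D'/v^2 for v ≥ V0 (D' = |D|, log x = v). Let M = limsup of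
f at infinity (it exists as f is bounded for v ≥ 0, `Filter.limsup`, 0 ≤ M ≤ C); SPD applies. Let ε > 0:
take v0 ≥ max 2 .. (large, κ/v0 ≤ ε) from SPD with f ≥ M - ε on [v0 - log 2, v0); MIN (p = 0, B = 0)
gives f v ≥ M - ε - κ/v0 ≥ M - 2ε for all v ≥ v0. So f → M. Finally F x/x = f (log x) for x > 0. -/
def CvgStmt : Prop :=
  ∀ F : ℝ → ℝ, (∀ x y, 0 < x → x ≤ y → F x ≤ F y) → (∀ x, 0 ≤ F x) →
    (∃ C : ℝ, ∀ x, 1 ≤ x → F x ≤ C * x) →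
    (∃ D x0 : ℝ, ∀ x, x0 ≤ x → |F x - F (x / 2) - F (3 * x / 2) / 3| ≤ D * x / Real.log x ^ 2) →
    ∃ ρ : ℝ, 0 ≤ ρ ∧ Tendsto (fun x => F x / x) atTop (𝓝 ρ)

end Pool.Agent.WR3
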